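import Pool.Agent.V1130.GapMain

set_option autoImplicit false

namespace Pool.Agent.Results.MP_2beb52_al.DeterminingGap

open Equiv Pool.Agent.V1130.Gap7

/-- `B` is a base of the action `φ`: only the identity fixes all points of `B`. -/
def IsBase {G X : Type} [Group G] (φ : G →* Equiv.Perm X) (B : Finset X) : Prop :=
  ∀ g : G, (∀ x ∈ B, φ g x = x) → g = 1

/-- the base size of the action `φ` is `b` -/
def HasBaseSize {G X : Type} [Group G] (φ : G →* Equiv.Perm X) (b : ℕ) : Prop :=
  (∃ B : Finset X, B.card = b ∧ IsBase φ B) ∧ ∀ B : Finset X, IsBase φ B → b ≤ B.card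

/-- the set of base sizes of the faithful actions of `G` on finite sets -/
def BaseSet (G : Type) [Group G] : Set ℕ :=
  {b | ∃ (n : ℕ) (φ : G →* Equiv.Perm (Fin n)), Function.Injective φ ∧ HasBaseSize φ b}

/-- the natural action of the automorphism group of a graph on its vertices -/
def autHom {n : ℕ} (Γ : SimpleGraph (Fin n)) : (Γ ≃g Γ) →* Equiv.Perm (Fin n) where
  toFun a := a.toEquiv
  map_one' := rfl
  map_mul' _ _ := rfl

/-- the determining set of `G`: base sizes of `Aut Γ` on the vertices, over the finite graphs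
`Γ` with `Aut Γ ≅ G` -/
def DetSet (G : Type) [Group G] : Set ℕ :=
  {b | ∃ (n : ℕ) (Γ : SimpleGraph (Fin n)), Nonempty ((Γ ≃g Γ) ≃* G) ∧
    HasBaseSize (autHom Γ) b}

theorem swap_ne_one {a b : Fin 7} (h : a ≠ b) : swap a b ≠ (1 : P7) := by
  intro h1
  have := congrArg (fun w : P7 => w a) h1
  simp only [Equiv.swap_apply_left, Equiv.Perm.one_apply] at this
  exact h this.symm

theorem two_out (S : Finset (Fin 7)) (hS : S.card ≤ 5) : ∃ a b : Fin 7, a ≠ b ∧ a ∉ S ∧ b ∉ S := by
  have h : 1 < (Sᶜ).card := by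
    rw [Finset.card_compl, Fintype.card_fin]; omega
  obtain ⟨x, hx, y, hy, hxy⟩ := Finset.one_lt_card.1 h
  exact ⟨x, y, hxy, Finset.mem_compl.1 hx, Finset.mem_compl.1 hy⟩

/-- an odd permutation fixing two given points -/
theorem odd_fix (i j : Fin 7) : ∃ t : P7, Equiv.Perm.sign t = -1 ∧ t i = i ∧ t j = j := by
  obtain ⟨a, b, hab, ⟨h1, h2, -, -⟩, h3, h4, -, -⟩ := exists_two_out i j i j
  exact ⟨swap a b, Equiv.Perm.sign_swap hab,
    Equiv.swap_apply_of_ne_of_ne (Ne.symm h1) (Ne.symm h3),
    Equiv.swap_apply_of_ne_of_ne (Ne.symm h2) (Ne.symm h4)⟩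

theorem center_trivial (s : P7) (h : ∀ t : P7, s * t = t * s) : s = 1 := by
  ext1 a
  rw [Equiv.Perm.one_apply]
  by_contra hne
  obtain ⟨c, -, -, ⟨h1, h2, -, -⟩, -⟩ := exists_two_out a (s a) a (s a)
  have h3 := congrArg (fun w : P7 => w a) (h (swap (s a) c))
  simp only [Equiv.Perm.mul_apply] at h3
  rw [Equiv.swap_apply_of_ne_of_ne (Ne.symm hne) (Ne.symm h1), Equiv.swap_apply_left] at h3
  exact h2 h3.symm

theorem six_mem : 6 ∈ DetSet P7 := by
  refine ⟨7, ⊤, ⟨⟨⟨fun a => a.toEquiv, fun σ => ⟨σ, by intro a b; simp⟩, fun a => rfl,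
    fun σ => rfl⟩, fun a b => rfl⟩⟩, ⟨Finset.univ.erase 0, ?_, ?_⟩, ?_⟩
  · rw [Finset.card_erase_of_mem (Finset.mem_univ _), Finset.card_univ, Fintype.card_fin]
  · intro g hg
    have hfix : ∀ x : Fin 7, x ≠ 0 → (autHom _ g) x = x := fun x hx =>
      hg x (Finset.mem_erase.2 ⟨hx, Finset.mem_univ _⟩)
    have h0 : (autHom _ g) 0 = 0 := by
      by_contra hne
      exact hne ((autHom _ g).injective (hfix _ hne))
    have hall : ∀ x : Fin 7, g x = x := by
      intro x
      by_cases hx : x = 0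
      · rw [hx]; exact h0
      · exact hfix x hx
    ext x
    rw [hall x]; rfl
  · intro B hB
    by_contra hlt
    push Not at hlt
    obtain ⟨a, b, hab, ha, hb⟩ := two_out B (by omega)
    let g : ((⊤ : SimpleGraph (Fin 7)) ≃g ⊤) := ⟨swap a b, by intro a b; simp⟩
    have h1 : g = 1 := by
      apply hB
      intro x hx
      change swap a b x = x
      exact Equiv.swap_apply_of_ne_of_ne (fun h => ha (h ▸ hx)) (fun h => hb (h ▸ hx))
    have h2 := congrArg (fun w : ((⊤ : SimpleGraph (Fin 7)) ≃g ⊤) => w a) h1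
    have h3 : swap a b a = a := h2
    rw [Equiv.swap_apply_left] at h3
    exact hab h3.symm

theorem five_not_mem : 5 ∉ DetSet P7 := by
  classical
  rintro ⟨n, Γ, ⟨e⟩, ⟨B, hB5, hB⟩, hmin⟩
  -- the action of the symmetric group on the vertices
  let ψ : P7 →* Equiv.Perm (Fin n) := (autHom Γ).comp e.symm.toMonoidHom
  have hadj : ∀ (s : P7) (v w : Fin n), Γ.Adj (ψ s v) (ψ s w) ↔ Γ.Adj v w :=
    fun s v w => (e.symm s).map_adj_iff
  have hinj : ∀ s : P7, ψ s = 1 → s = 1 := by
    intro s hs
    have h1 : e.symm s = 1 := by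
      ext x
      exact congrArg (fun w : Equiv.Perm (Fin n) => (w x).val) hs
    have := congrArg e h1
    simpa using this
  have hmul : ∀ (s t : P7) (v : Fin n), ψ (s * t) v = ψ s (ψ t v) := by
    intro s t v; rw [map_mul]; rfl
  -- point stabilisers
  let St : Fin n → Subgroup P7 := fun v =>
    { carrier := {s | ψ s v = v}
      one_mem' := by simp
      mul_mem' := by
        intro a b ha hb
        change ψ (a * b) v = v
        rw [hmul]
        rw [show ψ b v = v from hb]; exact ha
      inv_mem' := by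
        intro a ha
        change ψ a⁻¹ v = v
        rw [map_inv, Equiv.Perm.inv_eq_iff_eq]
        exact (show ψ a v = v from ha).symm }
  have mSt : ∀ v s, s ∈ St v ↔ ψ s v = v := fun v s => Iff.rfl
  have hdeep : ∀ v, Deep (St v) := by
    intro v g
    have hnb : ¬ IsBase (autHom Γ) (Finset.univ.image (fun i : Fin 4 => ψ (g i) v)) := by
      intro h
      have h1 := hmin _ h
      have h2 : (Finset.univ.image (fun i : Fin 4 => ψ (g i) v)).card ≤ 4 := by
        refine le_trans Finset.card_image_le ?_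
        simp
      omega
    unfold IsBase at hnb
    push Not at hnb
    obtain ⟨a, ha, ha1⟩ := hnb
    refine ⟨e a, fun h => ha1 ?_, fun i => ?_⟩
    · have := congrArg e.symm h
      simpa using this
    · rw [mSt, hmul, hmul]
      have h1 := ha (ψ (g i) v) (Finset.mem_image.2 ⟨i, Finset.mem_univ _, rfl⟩)
      have h2 : ψ (e a) = autHom Γ a := by
        change autHom Γ (e.symm (e a)) = autHom Γ a
        rw [e.symm_apply_apply]
      rw [h2, h1, ← hmul, inv_mul_cancel, map_one, Equiv.Perm.one_apply]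
  choose p hp using fun v => deep_big (St v) (hdeep v)
  -- odd permutations fixing the point `p v` all act in the same way on `v`
  choose s hs1 hs2 hs3 using fun v => odd_fix (p v) (p v)
  have hz : ∀ v (t : P7), Equiv.Perm.sign t = -1 → t (p v) = p v → ψ (s v) v = ψ t v := by
    intro v t ht1 ht2
    have h1 : t⁻¹ * s v ∈ St v := by
      apply hp v
      · rw [Equiv.Perm.sign_mul, Equiv.Perm.sign_inv, ht1, hs1]; decide
      · rw [Equiv.Perm.mul_apply, hs2, Equiv.Perm.inv_eq_iff_eq, ht2]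
    rw [mSt, hmul, map_inv, Equiv.Perm.inv_eq_iff_eq] at h1
    exact h1
  let z : Fin n → Fin n := fun v => ψ (s v) v
  have hzdef : ∀ v, z v = ψ (s v) v := fun v => rfl
  have zinj : Function.Injective z := by
    intro v w hvw
    obtain ⟨t, ht1, ht2, ht3⟩ := odd_fix (p v) (p w)
    rw [hzdef, hzdef, hz v t ht1 ht2, hz w t ht1 ht3] at hvw
    exact (ψ t).injective hvw
  have zadj : ∀ v w, Γ.Adj (z v) (z w) ↔ Γ.Adj v w := by
    intro v w
    obtain ⟨t, ht1, ht2, ht3⟩ := odd_fix (p v) (p w)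
    rw [hzdef, hzdef, hz v t ht1 ht2, hz w t ht1 ht3, hadj]
  have zcomm : ∀ (r : P7) (v : Fin n), z (ψ r v) = ψ r (z v) := by
    intro r v
    obtain ⟨t, ht1, ht2, ht3⟩ := odd_fix (r (p v)) (p (ψ r v))
    rw [hzdef, hz (ψ r v) t ht1 ht3, hzdef, hz v (r⁻¹ * t * r) ?_ ?_]
    · rw [← hmul, ← hmul]
      congr 2
      group
    · rw [Equiv.Perm.sign_mul, Equiv.Perm.sign_mul, Equiv.Perm.sign_inv, ht1]
      rcases Int.units_eq_one_or (Equiv.Perm.sign r) with h | h <;> rw [h] <;> decide
    · rw [Equiv.Perm.mul_apply, Equiv.Perm.mul_apply, ht2, Equiv.Perm.inv_eq_iff_eq]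
  let ζ : Γ ≃g Γ :=
    { toEquiv := Equiv.ofBijective z ((Finite.injective_iff_bijective).1 zinj)
      map_rel_iff' := by
        intro v w
        exact zadj v w }
  have hζ : ∀ v, ζ v = z v := fun v => rfl
  have hcen : e ζ = 1 := by
    apply center_trivial
    intro t
    have h1 : ζ * e.symm t = e.symm t * ζ := by
      ext v
      exact congrArg Fin.val (zcomm t v)
    have h2 := congrArg e h1
    rw [map_mul, map_mul, e.apply_symm_apply] at h2
    exact h2
  have hζ1 : ζ = 1 := by
    have := congrArg e.symm hcen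
    simpa using this
  have hzid : ∀ v, z v = v := by
    intro v
    rw [← hζ, hζ1]; rfl
  -- the full stabiliser of `p v` fixes `v`
  obtain ⟨a, b, hab, ha, hb⟩ := two_out (B.image p) (le_trans Finset.card_image_le (by omega))
  have h1 : ψ (swap a b) = 1 := by
    have h2 : e.symm (swap a b) = 1 := by
      apply hB
      intro v hv
      have h3 : swap a b (p v) = p v :=
        Equiv.swap_apply_of_ne_of_ne (fun h => ha (h ▸ Finset.mem_image_of_mem p hv))
          (fun h => hb (h ▸ Finset.mem_image_of_mem p hv))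
      have h4 := hz v (swap a b) (Equiv.Perm.sign_swap hab) h3
      rw [← hzdef, hzid] at h4
      exact h4.symm
    change autHom Γ (e.symm (swap a b)) = 1
    rw [h2, map_one]
  exact swap_ne_one hab (hinj _ h1)

/-- The determining set of the symmetric group `S_7` contains `6` but not `5`; consequently it is
not true that for every nontrivial finite group both the base size set and the determining set
are intervals `{1, ..., k}`. -/
theorem result :
    (6 ∈ DetSet (Equiv.Perm (Fin 7)) ∧ 5 ∉ DetSet (Equiv.Perm (Fin 7))) ∧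
    ¬ (∀ (G : Type) [Group G] [Finite G] [Nontrivial G],
      (∃ k : ℕ, 1 ≤ k ∧ BaseSet G = {b | 1 ≤ b ∧ b ≤ k}) ∧
      (∃ k : ℕ, 1 ≤ k ∧ DetSet G = {b | 1 ≤ b ∧ b ≤ k})) := by
  refine ⟨⟨six_mem, five_not_mem⟩, fun h => ?_⟩
  obtain ⟨-, k, -, hk⟩ := h (Equiv.Perm (Fin 7))
  have h6 : 6 ∈ DetSet (Equiv.Perm (Fin 7)) := six_mem
  have h5 : 5 ∉ DetSet (Equiv.Perm (Fin 7)) := five_not_mem
  rw [hk] at h6 h5
  simp only [Set.mem_ofPred_eq] at h6 h5
  omega

end Pool.Agent.Results.MP_2beb52_al.DeterminingGap
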