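import Mathlib

/-!
# A finite group whose base size set has a gap

The base size of an action of a finite group `G` on a finite set is the least cardinality of a
set of points with trivial pointwise stabiliser, and `baseSizeSet G` is the set of the base sizes
of the faithful actions of `G` on finite sets. We show that this set is `{1, 2, 4}` for the group
`G` of order `80` of the permutations `(i, s) ↦ (i + c, s + v (i + c))` of `ℤ/5 × ℤ/2`, where
`c ∈ ℤ/5` and `v : ℤ/5 → ℤ/2` has sum zero.
-/

namespace Pool.Agent.Results.MP_2beb52_al.GapOrderEighty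

/-- A finite set of points whose pointwise stabiliser is trivial. -/
def IsBase (G S : Type) [Group G] [MulAction G S] (B : Finset S) : Prop :=
  ∀ g : G, (∀ x ∈ B, g • x = x) → g = 1

/-- `b` is the base size of the action of `G` on `S`: the least cardinality of a base. -/
def IsBaseSize (G S : Type) [Group G] [MulAction G S] (b : ℕ) : Prop :=
  IsLeast {n | ∃ B : Finset S, IsBase G S B ∧ B.card = n} b

/-- The base size set of `G`: the base sizes of the faithful actions of `G` on finite sets. -/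
def baseSizeSet (G : Type) [Group G] : Set ℕ :=
  {b | ∃ (S : Type) (_ : Finite S) (_ : MulAction G S), FaithfulSMul G S ∧ IsBaseSize G S b}

/-- The determining set of `G`: the base sizes of the automorphism groups, isomorphic to `G`,
of finite simple graphs, in their action on the vertices. -/
def determiningSet (G : Type) [Group G] : Set ℕ :=
  {b | ∃ (V : Type) (_ : Finite V) (Γ : SimpleGraph V), Nonempty ((Γ ≃g Γ) ≃* G) ∧
    IsLeast {n | ∃ B : Finset V, (∀ f : Γ ≃g Γ, (∀ x ∈ B, f x = x) → f = 1) ∧ B.card = n} b}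

/-- The group of order `80`: an element `(v, c)` stands for the permutation
`(i, s) ↦ (i + c, s + v (i + c))` of `ℤ/5 × ℤ/2`, the sum of the `v i` being zero. -/
@[ext] structure W where
  v : ZMod 5 → ZMod 2
  c : ZMod 5
  h : ∑ i, v i = 0

namespace W

theorem sum_shift (f : ZMod 5 → ZMod 2) (a : ZMod 5) : ∑ i, f (i + a) = ∑ i, f i :=
  Fintype.sum_equiv (Equiv.addRight a) _ _ (fun _ => rfl)

theorem sum_shift' (f : ZMod 5 → ZMod 2) (a : ZMod 5) : ∑ i, f (i - a) = ∑ i, f i :=
  Fintype.sum_equiv (Equiv.subRight a) _ _ (fun _ => rfl)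

instance : Mul W := ⟨fun a b => ⟨fun i => a.v i + b.v (i - a.c), a.c + b.c, by
  rw [Finset.sum_add_distrib, sum_shift', a.h, b.h, add_zero]⟩⟩

instance : One W := ⟨⟨fun _ => 0, 0, by simp⟩⟩

instance : Inv W := ⟨fun a => ⟨fun i => a.v (i + a.c), -a.c, by rw [sum_shift, a.h]⟩⟩

@[simp] theorem mul_v (a b : W) (i : ZMod 5) : (a * b).v i = a.v i + b.v (i - a.c) := rfl
@[simp] theorem mul_c (a b : W) : (a * b).c = a.c + b.c := rfl
@[simp] theorem one_v (i : ZMod 5) : (1 : W).v i = 0 := rfl
@[simp] theorem one_c : (1 : W).c = 0 := rfl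
@[simp] theorem inv_v (a : W) (i : ZMod 5) : (a⁻¹).v i = a.v (i + a.c) := rfl
@[simp] theorem inv_c (a : W) : (a⁻¹).c = -a.c := rfl

instance : Group W := Group.ofLeftAxioms
  (by
    intro a b c
    ext i
    · simp [add_assoc, sub_sub]
    · simp [add_assoc])
  (by
    intro a
    ext i
    · simp
    · simp)
  (by
    intro a
    ext i
    · simp [CharTwo.add_self_eq_zero]
    · simp)

instance : Finite W := by
  apply Finite.of_injective (fun a : W => (a.v, a.c))
  intro a b h
  simp only [Prod.mk.injEq] at h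
  ext i
  · rw [h.1]
  · exact h.2

/-- The vectors of sum zero. -/
def Vs : AddSubgroup (ZMod 5 → ZMod 2) where
  carrier := {f | ∑ i, f i = 0}
  zero_mem' := by simp
  add_mem' := by
    intro a b ha hb
    change ∑ i, a i = 0 at ha
    change ∑ i, b i = 0 at hb
    change ∑ i, (a i + b i) = 0
    rw [Finset.sum_add_distrib, ha, hb, add_zero]
  neg_mem' := by
    intro a ha
    change ∑ i, a i = 0 at ha
    change ∑ i, (- a i) = 0
    rw [Finset.sum_neg_distrib, ha, neg_zero]

theorem card_Vs : Nat.card Vs = 16 := by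
  have h : Nat.card Vs = Fintype.card {f : ZMod 5 → ZMod 2 // ∑ i, f i = 0} := by
    rw [← Nat.card_eq_fintype_card]
    rfl
  rw [h]
  decide +kernel

theorem card_W : Nat.card W = 80 := by
  have e : W ≃ Vs × ZMod 5 :=
    { toFun := fun a => (⟨a.v, a.h⟩, a.c)
      invFun := fun p => ⟨p.1.1, p.2, p.1.2⟩
      left_inv := fun a => rfl
      right_inv := fun p => rfl }
  rw [Nat.card_congr e, Nat.card_prod, card_Vs, Nat.card_zmod]

/-- The translation by a vector of sum zero. -/
def t (w : Vs) : W := ⟨w.1, 0, w.2⟩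

/-- The rotation. -/
def r (j : ZMod 5) : W := ⟨fun _ => 0, j, by simp⟩

@[simp] theorem t_v (w : Vs) (i : ZMod 5) : (t w).v i = w.1 i := rfl
@[simp] theorem t_c (w : Vs) : (t w).c = 0 := rfl
@[simp] theorem r_v (j i : ZMod 5) : (r j).v i = 0 := rfl
@[simp] theorem r_c (j : ZMod 5) : (r j).c = j := rfl

theorem t_add (w w' : Vs) : t (w + w') = t w * t w' := by
  ext i
  · simp
  · simp

theorem t_zero : t 0 = 1 := by
  ext i
  · simp
  · simp

theorem t_eq_one {w : Vs} (h : t w = 1) : w = 0 := by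
  ext i
  have := congrArg (fun g : W => g.v i) h
  simpa using this

theorem eq_t {k : W} (hk : k.c = 0) : k = t ⟨k.v, k.h⟩ := by
  ext i
  · simp
  · simp [hk]

/-- The shift of a vector. -/
def sh (j : ZMod 5) (w : Vs) : Vs := ⟨fun i => w.1 (i - j), by
  change ∑ i, w.1 (i - j) = 0
  rw [sum_shift']
  exact w.2⟩

@[simp] theorem sh_apply (j i : ZMod 5) (w : Vs) : (sh j w).1 i = w.1 (i - j) := rfl

theorem conj_t (g : W) (w : Vs) : g * t w * g⁻¹ = t (sh g.c w) := by
  ext i
  · have : g.v i + w.1 (i - g.c) + g.v i = w.1 (i - g.c) := by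
      rw [add_right_comm, CharTwo.add_self_eq_zero, zero_add]
    simpa using this
  · simp

section action

variable {S : Type} [MulAction W S]

/-- The vectors whose translations fix `x`. -/
def D (x : S) : AddSubgroup Vs where
  carrier := {w | t w • x = x}
  zero_mem' := by
    change t 0 • x = x
    rw [t_zero, one_smul]
  add_mem' := by
    intro a b ha hb
    change t a • x = x at ha
    change t b • x = x at hb
    change t (a + b) • x = x
    rw [t_add, mul_smul, hb, ha]
  neg_mem' := by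
    intro a ha
    change t a • x = x at ha
    change t (-a) • x = x
    have h1 : t (-a) * t a = 1 := by rw [← t_add, neg_add_cancel, t_zero]
    calc t (-a) • x = t (-a) • (t a • x) := by rw [ha]
      _ = x := by rw [← mul_smul, h1, one_smul]

theorem mem_D {x : S} {w : Vs} : w ∈ D x ↔ t w • x = x := Iff.rfl

/-- A multiple of a vector. -/
def mu (a : ZMod 2) (w : Vs) : Vs := ⟨fun i => a * w.1 i, by
  change ∑ i, a * w.1 i = 0
  rw [← Finset.mul_sum, show ∑ i, w.1 i = 0 from w.2, mul_zero]⟩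

theorem mu_mem_D {x : S} {w : Vs} (hw : w ∈ D x) (a : ZMod 2) : mu a w ∈ D x := by
  have ha : a = 0 ∨ a = 1 := by
    revert a
    decide
  rcases ha with ha | ha
  · have : mu a w = 0 := by
      ext i
      change a * w.1 i = 0
      rw [ha, zero_mul]
    rw [this]
    exact (D x).zero_mem
  · have : mu a w = w := by
      ext i
      change a * w.1 i = w.1 i
      rw [ha, one_mul]
    rw [this]
    exact hw

/-- A combination of four vectors. -/
def comb (a : Fin 4 → ZMod 2) (w0 w1 w2 w3 : Vs) : Vs :=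
  mu (a 0) w0 + mu (a 1) w1 + mu (a 2) w2 + mu (a 3) w3

theorem comb_mem_D {x : S} {w0 w1 w2 w3 : Vs} (h0 : w0 ∈ D x) (h1 : w1 ∈ D x) (h2 : w2 ∈ D x)
    (h3 : w3 ∈ D x) (a : Fin 4 → ZMod 2) : comb a w0 w1 w2 w3 ∈ D x :=
  (D x).add_mem ((D x).add_mem ((D x).add_mem (mu_mem_D h0 _) (mu_mem_D h1 _)) (mu_mem_D h2 _))
    (mu_mem_D h3 _)

theorem span_aux : ∀ w : ZMod 5 → ZMod 2, ∑ i, w i = 0 → w ≠ 0 →
    ∀ v : ZMod 5 → ZMod 2, ∑ i, v i = 0 → ∃ a : Fin 4 → ZMod 2,
      v = fun i => a 0 * w i + a 1 * w (i-1) + a 2 * w (i-2) + a 3 * w (i-3) := by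
  decide +kernel

theorem count_aux : ∀ w : ZMod 5 → ZMod 2, ∑ i, w i = 0 → w ≠ 0 →
    ∀ v : ZMod 5 → ZMod 2, ∑ i, v i = 0 → v ≠ 0 →
      8 ≤ (Finset.univ.image (fun a : Fin 4 → ZMod 2 => fun i : ZMod 5 =>
        a 0 * w i + a 1 * w (i + 1) + a 2 * v i + a 3 * v (i + 2))).card := by
  decide +kernel

/-- Four shifts of a nonzero vector span. -/
theorem full_of_shifts {x : S} {w : Vs} (hw : w ≠ 0) (h0 : w ∈ D x) (h1 : sh 1 w ∈ D x)
    (h2 : sh 2 w ∈ D x) (h3 : sh 3 w ∈ D x) (v : Vs) : v ∈ D x := by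
  obtain ⟨a, ha⟩ := span_aux w.1 w.2 (fun h => hw (Subtype.ext h)) v.1 v.2
  have : v = comb a w (sh 1 w) (sh 2 w) (sh 3 w) := Subtype.ext ha
  rw [this]
  exact comb_mem_D h0 h1 h2 h3 a

/-- If a nonzero translation `w` fixes `x` and `r 1 • x`, and a nonzero translation `v` fixes
`x` and `r 2 • x`, the translations fixing `x` have index at most two. -/
theorem index_le_two {x : S} {w v : Vs} (hw : w ≠ 0) (hv : v ≠ 0) (h0 : w ∈ D x)
    (h1 : sh (-1) w ∈ D x) (h2 : v ∈ D x) (h3 : sh (-2) v ∈ D x) : (D x).index ≤ 2 := by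
  have hc := count_aux w.1 w.2 (fun h => hw (Subtype.ext h)) v.1 v.2
    (fun h => hv (Subtype.ext h))
  have h8 : 8 ≤ Nat.card (D x) := by
    refine hc.trans ?_
    have hmem : ∀ f ∈ (Finset.univ.image (fun a : Fin 4 → ZMod 2 => fun i : ZMod 5 =>
        a 0 * w.1 i + a 1 * w.1 (i + 1) + a 2 * v.1 i + a 3 * v.1 (i + 2))),
        ∃ y : D x, y.1.1 = f := by
      intro f hf
      rw [Finset.mem_image] at hf
      obtain ⟨a, -, rfl⟩ := hf
      refine ⟨⟨comb a w (sh (-1) w) v (sh (-2) v), comb_mem_D h0 h1 h2 h3 a⟩, ?_⟩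
      funext i
      change a 0 * w.1 i + a 1 * w.1 (i - -1) + a 2 * v.1 i + a 3 * v.1 (i - -2) = _
      rw [sub_neg_eq_add, sub_neg_eq_add]
    choose! φ hφ using hmem
    have := Nat.card_le_card_of_injective
      (fun f : ↥(Finset.univ.image (fun a : Fin 4 → ZMod 2 => fun i : ZMod 5 =>
        a 0 * w.1 i + a 1 * w.1 (i + 1) + a 2 * v.1 i + a 3 * v.1 (i + 2))) => φ f.1) (by
        intro f g hfg
        have h := congrArg (fun y : D x => y.1.1) hfg
        simp only at h
        rw [hφ _ f.2, hφ _ g.2] at h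
        exact Subtype.ext h)
    rwa [Nat.card_eq_fintype_card, Fintype.card_coe] at this
  have hmul := (D x).card_mul_index
  rw [card_Vs] at hmul
  by_contra hlt
  rw [not_le] at hlt
  have : 8 * 3 ≤ Nat.card (D x) * (D x).index := Nat.mul_le_mul h8 hlt
  omega

theorem index_iInf_le (B : Finset S) (hB : ∀ x ∈ B, (D x).index ≤ 2) :
    ∃ K : AddSubgroup Vs, (∀ w ∈ K, ∀ x ∈ B, w ∈ D x) ∧ K.index ≤ 2 ^ B.card := by
  classical
  induction B using Finset.induction_on with
  | empty => exact ⟨⊤, by simp, by simp⟩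
  | insert x B hx ih =>
    obtain ⟨K, hK, hi⟩ := ih (fun y hy => hB y (Finset.mem_insert_of_mem hy))
    refine ⟨D x ⊓ K, ?_, ?_⟩
    · intro w hw y hy
      rcases Finset.mem_insert.1 hy with rfl | hy
      · exact hw.1
      · exact hK w hw.2 y hy
    · refine (AddSubgroup.index_inf_le).trans ?_
      rw [Finset.card_insert_of_notMem hx, pow_succ, mul_comm]
      exact Nat.mul_le_mul hi (hB x (Finset.mem_insert_self _ _))

theorem fix_iff (g k : W) (x : S) : k • (g • x) = g • x ↔ (g⁻¹ * k * g) • x = x := by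
  rw [mul_smul, mul_smul, inv_smul_eq_iff]

theorem pow_c (g : W) (n : ℕ) : (g ^ n).c = (n : ZMod 5) * g.c := by
  induction n with
  | zero => simp
  | succ n ih => rw [pow_succ, mul_c, ih]; push_cast; ring

theorem gen_aux : ∀ c j : ZMod 5, c ≠ 0 → ∃ n : Fin 5, ((n : ℕ) : ZMod 5) * c = j := by
  decide

/-- The vector `(1, 1, 0, 0, 0)`. -/
def u : Vs := ⟨fun i => if i = 0 ∨ i = 1 then 1 else 0, by
  change ∑ i : ZMod 5, (if i = 0 ∨ i = 1 then (1 : ZMod 2) else 0) = 0
  decide⟩

theorem u_ne : u ≠ 0 := by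
  intro h
  have h1 : u.1 0 = (0 : Vs).1 0 := by rw [h]
  revert h1
  change ¬ ((if (0 : ZMod 5) = 0 ∨ (0 : ZMod 5) = 1 then (1 : ZMod 2) else 0) = 0)
  decide

theorem u_shift : ∀ c c' : ZMod 5, (∀ i : ZMod 5,
    (if i - c = 0 ∨ i - c = 1 then (1 : ZMod 2) else 0)
      = (if i - c' = 0 ∨ i - c' = 1 then (1 : ZMod 2) else 0)) → c = c' := by
  decide

theorem u_shift_eq {c c' : ZMod 5} (h : ∀ i : ZMod 5, u.1 (i - c) = u.1 (i - c')) : c = c' :=
  u_shift c c' h

theorem r_ne {j : ZMod 5} (hj : j ≠ 0) : r j ≠ 1 := fun h => hj (congrArg W.c h)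

/-- A point whose stabiliser contains a non-translation but not all translations. -/
theorem two_of_mixed {x : S} {g : W} (hg : g • x = x) (hc : g.c ≠ 0) (hx : ∃ v, v ∉ D x) :
    ∃ B : Finset S, IsBase W S B ∧ B.card ≤ 2 := by
  classical
  have h0 : ∀ w ∈ D x, w = 0 := by
    intro w hw
    by_contra hne
    obtain ⟨v, hv⟩ := hx
    have hs : ∀ j : ZMod 5, sh j w ∈ D x := by
      intro j
      obtain ⟨n, hn⟩ := gen_aux g.c j hc
      have hgn : (g ^ (n : ℕ)) • x = x := by
        clear hn
        induction (n : ℕ) with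
        | zero => simp
        | succ m ih => rw [pow_succ, mul_smul, hg, ih]
      have hgi : (g ^ (n : ℕ))⁻¹ • x = x := by
        rw [inv_smul_eq_iff, hgn]
      have h1 : (g ^ (n : ℕ) * t w * (g ^ (n : ℕ))⁻¹) • x = x := by
        rw [mul_smul, mul_smul, hgi, mem_D.1 hw, hgn]
      rw [conj_t, pow_c, hn] at h1
      exact h1
    exact hv (full_of_shifts hne hw (hs 1) (hs 2) (hs 3) v)
  refine ⟨{x, t u • x}, ?_, Finset.card_le_two⟩
  intro k hk
  have hk1 : k • x = x := hk x (by simp)
  have hk2 : k • (t u • x) = t u • x := hk _ (by simp)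
  rw [fix_iff] at hk2
  have hki : k⁻¹ • x = x := by rw [inv_smul_eq_iff, hk1]
  have hz : (k⁻¹ * ((t u)⁻¹ * k * t u)) • x = x := by
    rw [mul_smul, hk2, hki]
  have hzc : (k⁻¹ * ((t u)⁻¹ * k * t u)).c = 0 := by simp
  have hzv : ∀ i, (k⁻¹ * ((t u)⁻¹ * k * t u)).v i = u.1 (i + k.c) + u.1 i := by
    intro i
    have e : k.v (i + k.c) + (u.1 (i + k.c) + k.v (i + k.c) + u.1 i)
        = u.1 (i + k.c) + u.1 i := by
      have := CharTwo.add_self_eq_zero (k.v (i + k.c))
      linear_combination this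
    simpa using e
  rw [eq_t hzc] at hz
  have hz0 := h0 _ hz
  have hkc : k.c = 0 := by
    have : -k.c = 0 := by
      apply u_shift_eq
      intro i
      have h1 := hzv i
      have h2 : (k⁻¹ * ((t u)⁻¹ * k * t u)).v i = 0 := congrFun (congrArg Subtype.val hz0) i
      rw [h2] at h1
      rw [sub_neg_eq_add, sub_zero]
      have h3 := CharTwo.add_self_eq_zero (u.1 i)
      linear_combination (-1 : ZMod 2) * h1 - h3
    simpa using this
  rw [eq_t hkc] at hk1 ⊢
  rw [h0 _ hk1, t_zero]

/-- Four rotated copies of a point form a base. -/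
theorem four_base {x : S} (hx : ∃ v, v ∉ D x) (hV : ∀ g : W, g • x = x → g.c = 0) :
    ∃ B : Finset S, IsBase W S B ∧ B.card ≤ 4 := by
  classical
  refine ⟨{x, r 1 • x, r 2 • x, r 3 • x}, ?_, Finset.card_le_four⟩
  intro k hk
  have hk0 : k • x = x := hk x (by simp)
  have hc := hV k hk0
  have hj : ∀ j : ZMod 5, k • (r j • x) = r j • x → sh (-j) ⟨k.v, k.h⟩ ∈ D x := by
    intro j h
    rw [fix_iff] at h
    rw [eq_t hc] at h
    have := conj_t (r j)⁻¹ ⟨k.v, k.h⟩
    rw [inv_inv] at this
    rw [this] at h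
    exact h
  rw [eq_t hc] at hk0
  obtain ⟨w, hw⟩ : ∃ w : Vs, w = ⟨k.v, k.h⟩ := ⟨_, rfl⟩
  rw [← hw] at hj hk0
  have h1 := hj 1 (hk _ (by simp))
  have h2 := hj 2 (hk _ (by simp))
  have h3 := hj 3 (hk _ (by simp))
  rw [eq_t hc, ← hw]
  by_cases hne : w = 0
  · rw [hne, t_zero]
  · exfalso
    obtain ⟨v, hv⟩ := hx
    have e1 : sh 1 (sh (-3) w) = sh (-2) w := by
      ext i
      change w.1 (i - 1 - -3) = w.1 (i - -2)
      ring_nf
    have e2 : sh 2 (sh (-3) w) = sh (-1) w := by
      ext i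
      change w.1 (i - 2 - -3) = w.1 (i - -1)
      ring_nf
    have e3 : sh 3 (sh (-3) w) = w := by
      ext i
      change w.1 (i - 3 - -3) = w.1 i
      ring_nf
    refine hv (full_of_shifts (w := sh (-3) w) ?_ h3 (e1 ▸ h2) (e2 ▸ h1) (e3.symm ▸ hk0) v)
    intro h0
    apply hne
    rw [← e3, h0]
    ext i
    rfl

/-- The base size of a faithful action is one, two or four. -/
theorem baseSize_cases [FaithfulSMul W S] {b : ℕ} (hb : IsBaseSize W S b) :
    b = 1 ∨ b = 2 ∨ b = 4 := by
  classical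
  have hb1 : 1 ≤ b := by
    by_contra h
    obtain ⟨B, hB, hcard⟩ := hb.1
    have : B = ∅ := by
      rw [← Finset.card_eq_zero]
      omega
    have h1 := hB (r 1) (by simp [this])
    exact r_ne (by decide) h1
  by_cases hsmall : ∃ B : Finset S, IsBase W S B ∧ B.card ≤ 2
  · obtain ⟨B, hB, hcard⟩ := hsmall
    have := hb.2 ⟨B, hB, rfl⟩
    omega
  · right; right
    have hpure : ∀ x : S, (∃ v, v ∉ D x) → ∀ g : W, g • x = x → g.c = 0 := by
      intro x hx g hg
      by_contra hc
      exact hsmall (two_of_mixed hg hc hx)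
    have hindex : ∀ x : S, (D x).index ≤ 2 := by
      intro x
      by_cases hx : ∃ v, v ∉ D x
      · have hj : ∀ j : ZMod 5, ∃ w : Vs, w ≠ 0 ∧ w ∈ D x ∧ sh (-j) w ∈ D x := by
          intro j
          have hnot : ¬ IsBase W S {x, r j • x} := fun h =>
            hsmall ⟨_, h, Finset.card_le_two⟩
          unfold IsBase at hnot
          push Not at hnot
          obtain ⟨k, hk, hk1⟩ := hnot
          have hk0 : k • x = x := hk x (by simp)
          have hkj : k • (r j • x) = r j • x := hk _ (by simp)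
          have hc := hpure x hx k hk0
          refine ⟨⟨k.v, k.h⟩, ?_, ?_, ?_⟩
          · intro h0
            apply hk1
            rw [eq_t hc, h0, t_zero]
          · rw [eq_t hc] at hk0
            exact hk0
          · rw [fix_iff, eq_t hc] at hkj
            have := conj_t (r j)⁻¹ ⟨k.v, k.h⟩
            rw [inv_inv] at this
            rw [this] at hkj
            exact hkj
        obtain ⟨w, hw, hw0, hw1⟩ := hj 1
        obtain ⟨v, hv, hv0, hv1⟩ := hj 2
        exact index_le_two hw hv hw0 hw1 hv0 hv1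
      · push Not at hx
        have : D x = ⊤ := by
          rw [eq_top_iff]
          intro v _
          exact hx v
        rw [this, AddSubgroup.index_top]
        norm_num
    have hge : 4 ≤ b := by
      by_contra hlt
      obtain ⟨B, hB, hcard⟩ := hb.1
      obtain ⟨K, hK, hKi⟩ := index_iInf_le B (fun x _ => hindex x)
      have hne : K ≠ ⊥ := by
        intro h
        rw [h, AddSubgroup.index_bot, card_Vs] at hKi
        have : 2 ^ B.card ≤ 2 ^ 3 := Nat.pow_le_pow_right (by norm_num) (by omega)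
        omega
      obtain ⟨w, hwK, hw⟩ := (AddSubgroup.bot_or_exists_ne_zero K).resolve_left hne
      exact hw (t_eq_one (hB (t w) (fun x hx => hK w hwK x hx)))
    have hex : ∃ x : S, ∃ v, v ∉ D x := by
      by_contra hall
      push Not at hall
      apply u_ne
      apply t_eq_one
      apply FaithfulSMul.eq_of_smul_eq_smul (α := S)
      intro x
      rw [one_smul]
      exact hall x u
    obtain ⟨x, hx⟩ := hex
    obtain ⟨B, hB, hcard⟩ := four_base hx (hpure x hx)
    have := hb.2 ⟨B, hB, rfl⟩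
    omega

end action

/-! ### The three base sizes occur -/

theorem one_mem : 1 ∈ baseSizeSet W := by
  refine ⟨W, inferInstance, Monoid.toMulAction W, inferInstance, ?_, ?_⟩
  · refine ⟨{1}, ?_, by simp⟩
    intro g hg
    have := hg 1 (by simp)
    simpa using this
  · rintro n ⟨B, hB, rfl⟩
    by_contra h
    have hB0 : B = ∅ := by
      rw [← Finset.card_eq_zero]
      omega
    exact r_ne (j := 1) (by decide) (hB (r 1) (by simp [hB0]))

/-- The affine action on the vectors of sum zero. -/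
@[reducible] def affine : MulAction W Vs where
  smul a w := ⟨(a * t w).v, (a * t w).h⟩
  one_smul w := by
    ext i
    change (0 : ZMod 2) + w.1 (i - 0) = w.1 i
    rw [sub_zero, zero_add]
  mul_smul a b w := by
    ext i
    change (a.v i + b.v (i - a.c)) + w.1 (i - (a.c + b.c)) =
      a.v i + (b.v (i - a.c) + w.1 (i - a.c - b.c))
    rw [sub_sub, add_assoc]

theorem two_mem : 2 ∈ baseSizeSet W := by
  classical
  let _ := affine
  have hs : ∀ (a : W) (w : Vs) (i : ZMod 5), (a • w).1 i = a.v i + w.1 (i - a.c) :=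
    fun _ _ _ => rfl
  refine ⟨Vs, inferInstance, affine, ⟨?_⟩, ?_, ?_⟩
  · intro a b h
    have hv : a.v = b.v := by
      funext i
      have h1 := congrArg (fun w : Vs => w.1 i) (h 0)
      simp only [hs] at h1
      simpa using h1
    have hc : a.c = b.c := by
      apply u_shift_eq
      intro i
      have h1 := congrArg (fun w : Vs => w.1 i) (h u)
      simp only [hs, hv] at h1
      exact add_left_cancel h1
    ext i
    · rw [hv]
    · exact hc
  · refine ⟨{0, u}, ?_, Finset.card_pair (Ne.symm u_ne)⟩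
    intro g hg
    have h0 := hg 0 (by simp)
    have h1 := hg u (by simp)
    have hv : ∀ i, g.v i = 0 := by
      intro i
      have h2 := congrArg (fun w : Vs => w.1 i) h0
      simp only [hs] at h2
      simpa using h2
    have hc : g.c = 0 := by
      apply u_shift_eq
      intro i
      have h2 := congrArg (fun w : Vs => w.1 i) h1
      simp only [hs, hv, zero_add] at h2
      rw [h2, sub_zero]
    ext i
    · exact hv i
    · exact hc
  · rintro n ⟨B, hB, rfl⟩
    by_contra h
    have hle : B.card ≤ 1 := by omega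
    rw [Finset.card_le_one_iff_subset_singleton] at hle
    obtain ⟨w, hw⟩ := hle
    have hg := hB (t w * r 1 * (t w)⁻¹) (by
      intro y hy
      have : y = w := by simpa using hw hy
      subst this
      ext i
      rw [hs]
      have e : y.1 i + y.1 (i - 1) + y.1 (i - 1) = y.1 i := by
        rw [add_assoc, CharTwo.add_self_eq_zero, add_zero]
      simpa using e)
    have := congrArg W.c hg
    simp only [mul_c, inv_c, t_c, r_c, one_c, neg_zero, add_zero, zero_add] at this
    exact absurd this (by decide)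

/-- The action on `ℤ/5 × ℤ/2`. -/
@[reducible] def onPairs : MulAction W (ZMod 5 × ZMod 2) where
  smul a p := (p.1 + a.c, p.2 + a.v (p.1 + a.c))
  one_smul p := by
    change (p.1 + 0, p.2 + 0) = p
    rw [add_zero, add_zero]
  mul_smul a b p := by
    change (p.1 + (a.c + b.c), p.2 + (a.v (p.1 + (a.c + b.c)) + b.v (p.1 + (a.c + b.c) - a.c)))
      = (p.1 + b.c + a.c, p.2 + b.v (p.1 + b.c) + a.v (p.1 + b.c + a.c))
    have h1 : p.1 + (a.c + b.c) = p.1 + b.c + a.c := by ring
    have h2 : p.1 + b.c + a.c - a.c = p.1 + b.c := by ring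
    rw [h1, h2]
    congr 1
    ring

theorem pair_sum : ∀ i j : ZMod 5, i ≠ j →
    ∑ k : ZMod 5, (if k = i ∨ k = j then (1 : ZMod 2) else 0) = 0 := by
  decide

theorem four_mem : 4 ∈ baseSizeSet W := by
  classical
  let _ := onPairs
  have hs : ∀ (a : W) (p : ZMod 5 × ZMod 2), a • p = (p.1 + a.c, p.2 + a.v (p.1 + a.c)) :=
    fun _ _ => rfl
  have hbase : IsBase W (ZMod 5 × ZMod 2) {(0, 0), (1, 0), (2, 0), (3, 0)} := by
    intro g hg
    have h0 := hg (0, 0) (by simp)
    have h1 := hg (1, 0) (by simp)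
    have h2 := hg (2, 0) (by simp)
    have h3 := hg (3, 0) (by simp)
    simp only [hs, Prod.mk.injEq, zero_add] at h0 h1 h2 h3
    obtain ⟨hc, h0⟩ := h0
    rw [hc] at h0
    rw [hc, add_zero] at h1 h2 h3
    have hsum := g.h
    have hsum' : g.v 0 + g.v 1 + g.v 2 + g.v 3 + g.v 4 = 0 := by
      rw [← hsum]
      exact (Fin.sum_univ_five (fun i : Fin 5 => g.v i)).symm
    rw [h0, h1.2, h2.2, h3.2] at hsum'
    have h4 : g.v 4 = 0 := by simpa using hsum'
    have hv : ∀ i : ZMod 5, g.v i = 0 := by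
      intro i
      have hi : i = 0 ∨ i = 1 ∨ i = 2 ∨ i = 3 ∨ i = 4 := by
        revert i
        decide
      rcases hi with rfl | rfl | rfl | rfl | rfl
      · exact h0
      · exact h1.2
      · exact h2.2
      · exact h3.2
      · exact h4
    ext i
    · exact hv i
    · exact hc
  refine ⟨ZMod 5 × ZMod 2, inferInstance, onPairs, ⟨?_⟩, ?_, ?_⟩
  · intro a b h
    have hab : b⁻¹ * a = 1 := by
      apply hbase
      intro x _
      rw [mul_smul, h x, inv_smul_smul]
    exact (inv_mul_eq_one.1 hab).symm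
  · exact ⟨_, hbase, by decide⟩
  · rintro n ⟨B, hB, rfl⟩
    by_contra h
    have hI : 1 < ((B.image Prod.fst)ᶜ : Finset (ZMod 5)).card := by
      rw [Finset.card_compl, ZMod.card]
      have : (B.image Prod.fst).card ≤ B.card := Finset.card_image_le
      omega
    obtain ⟨i, hi, j, hj, hij⟩ := Finset.one_lt_card.1 hI
    rw [Finset.mem_compl] at hi hj
    have hw := t_eq_one (w := ⟨fun k => if k = i ∨ k = j then 1 else 0, pair_sum i j hij⟩)
      (hB _ (by
        intro p hp
        rw [hs]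
        have hpi : p.1 ≠ i := fun e => hi (e ▸ Finset.mem_image_of_mem _ hp)
        have hpj : p.1 ≠ j := fun e => hj (e ▸ Finset.mem_image_of_mem _ hp)
        ext
        · simp
        · simp [hpi, hpj]))
    have := congrFun (congrArg Subtype.val hw) i
    simp at this

theorem baseSizeSet_W : baseSizeSet W = {1, 2, 4} := by
  ext b
  constructor
  · rintro ⟨S, _, _, hf, hb⟩
    exact baseSize_cases hb
  · rintro (rfl | rfl | rfl)
    · exact one_mem
    · exact two_mem
    · exact four_mem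

end W

theorem result :
    (∃ (G : Type) (_ : Group G), Nat.card G = 80 ∧ baseSizeSet G = {1, 2, 4}) ∧
    ¬ ∀ (G : Type) [Group G] [Finite G] [Nontrivial G],
      ∃ k l : ℕ, baseSizeSet G = Set.Icc 1 k ∧ determiningSet G = Set.Icc 1 l := by
  refine ⟨⟨W, inferInstance, W.card_W, W.baseSizeSet_W⟩, ?_⟩
  intro h
  have : Nontrivial W := ⟨W.r 1, 1, W.r_ne (by decide)⟩
  obtain ⟨k, l, hk, -⟩ := h W
  rw [W.baseSizeSet_W] at hk
  have h4 : (4 : ℕ) ∈ Set.Icc 1 k := hk ▸ (by simp)
  have h3 : (3 : ℕ) ∈ Set.Icc 1 k := ⟨by norm_num, by have := h4.2; omega⟩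
  rw [← hk] at h3
  simp at h3

end Pool.Agent.Results.MP_2beb52_al.GapOrderEighty
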